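import Pool.Agent.P.MP_95c9ea_lc.Cube

/-! The negative cube relation at the successor of every infinite cardinal. -/

set_option autoImplicit false

open Cardinal Set Order

namespace Pool.Agent.P.MP_95c9ea_lc

universe u

theorem finite_transGen {α : Type u} [LinearOrder α] [WellFoundedLT α] (R : α → α → Prop)
    (hR : ∀ a b, R a b → a < b) (hs : ∀ c, {a | R a c}.Finite) (c : α) :
    {a | Relation.TransGen R a c}.Finite := by
  induction c using WellFoundedLT.induction with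
  | ind c ih =>
    refine ((hs c).union ((hs c).biUnion fun b hb => ih b (hR _ _ hb))).subset ?_
    intro a ha
    simp only [mem_ofPred_eq] at ha
    cases ha with
    | single h => exact Or.inl h
    | tail h1 h2 =>
      right
      simp only [mem_iUnion, mem_ofPred_eq]
      exact ⟨_, h2, h1⟩

/-- A subadditive function with finite fibres on a well order with countable initial segments. -/
theorem exists_subadd_nat {α : Type u} [LinearOrder α] [WellFoundedLT α]
    (hseg : ∀ a : α, #(Iio a) ≤ ℵ₀) :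
    ∃ d : α → α → ULift.{u} ℕ, (∀ a b c, a < b → b < c → d a c ≤ max (d a b) (d b c)) ∧
      ∀ i c, #{a | a < c ∧ d a c ≤ i} < ℵ₀ := by
  classical
  have hemb : ∀ c : α, Nonempty (Iio c ↪ ℕ) := by
    intro c
    have : Countable (Iio c) := Cardinal.mk_le_aleph0_iff.1 (hseg c)
    obtain ⟨f, hf⟩ := exists_injective_nat (Iio c)
    exact ⟨⟨f, hf⟩⟩
  let e : ∀ c : α, Iio c ↪ ℕ := fun c => (hemb c).some
  let R : ℕ → α → α → Prop := fun i a c => ∃ h : a < c, e c ⟨a, h⟩ ≤ i
  have hTmono : ∀ i j, i ≤ j → ∀ a c, Relation.TransGen (R i) a c → Relation.TransGen (R j) a c :=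
    fun i j hij a c h => Relation.TransGen.mono (fun a c ⟨h, h2⟩ => ⟨h, h2.trans hij⟩) _ _ h
  have hex : ∀ a c, a < c → ∃ i, Relation.TransGen (R i) a c :=
    fun a c h => ⟨e c ⟨a, h⟩, Relation.TransGen.single ⟨h, le_rfl⟩⟩
  let d : α → α → ℕ := fun a c => if h : a < c then Nat.find (hex a c h) else 0
  have hd1 : ∀ a c, a < c → Relation.TransGen (R (d a c)) a c := by
    intro a c h
    simp only [d, dif_pos h]
    exact Nat.find_spec (hex a c h)
  have hd2 : ∀ a c, a < c → ∀ i, Relation.TransGen (R i) a c → d a c ≤ i := by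
    intro a c h i hi
    simp only [d, dif_pos h]
    exact Nat.find_min' _ hi
  refine ⟨fun a c => ULift.up (d a c), ?_, ?_⟩
  · intro a b c hab hbc
    have := hd2 a c (hab.trans hbc) _ ((hTmono _ _ (le_max_left _ (d b c)) _ _ (hd1 a b hab)).trans
      (hTmono _ _ (le_max_right (d a b) _) _ _ (hd1 b c hbc)))
    rcases le_max_iff.1 this with h | h
    · exact le_max_iff.2 (Or.inl h)
    · exact le_max_iff.2 (Or.inr h)
  · intro i c
    rw [Cardinal.lt_aleph0_iff_set_finite]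
    refine (finite_transGen (R i.down) (fun a b h => h.1) (fun c => ?_) c).subset ?_
    · have : Finite {a | R i.down a c} := Finite.of_injective
        (fun a : {a | R i.down a c} => (⟨e c ⟨a.1, a.2.1⟩, a.2.2⟩ : Iic i.down)) (by
          intro a b hab
          have h2 : e c ⟨a.1, a.2.1⟩ = e c ⟨b.1, b.2.1⟩ := congrArg Subtype.val hab
          have h3 := (e c).injective h2
          have h4 : a.1 = b.1 := Subtype.mk.inj h3
          exact Subtype.ext h4)
      exact Set.toFinite _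
    · rintro a ⟨h, h2⟩
      exact hTmono _ _ h2 _ _ (hd1 a c h)

theorem Good.above' {α ι : Type u} [LinearOrder α] [LinearOrder ι] {d : α → α → ι}
    {K : Cardinal.{u}} (hK : ℵ₀ ≤ K) (hsmall : ∀ i c, #{a | a < c ∧ d a c ≤ i} < K)
    {X Y Z : Set α} (h : Good d X Y Z) (hY : K ≤ #Y) {x z : α} (hx : x ∈ X) (hz : z ∈ Z)
    (hxz : x < z) : ∃ y ∈ Y, z < y := by
  by_contra hcon
  have hsub : Y ⊆ insert z (insert x {a | a < z ∧ d a z ≤ d x z}) := by
    intro y hy
    rcases lt_trichotomy y z with h2 | h2 | h2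
    · right
      by_cases hxy : y = x
      · exact Or.inl hxy
      · right
        refine ⟨h2, ?_⟩
        rcases h x hx y hy z hz hxz h2 (Ne.symm hxy) with h1 | h1
        · exact h1.le
        · exact h1.1.symm.le
    · exact Or.inl h2
    · exact absurd ⟨y, hy, h2⟩ hcon
  have h1K : 1 < K := one_lt_aleph0.trans_le hK
  have h2 : #Y < K := by
    refine (mk_le_mk_of_subset hsub).trans_lt (mk_insert_le.trans_lt
      (add_lt_of_lt hK (mk_insert_le.trans_lt (add_lt_of_lt hK (hsmall _ _) h1K)) h1K))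
  exact absurd hY (not_le.mpr h2)

theorem Good.desc {α ι : Type u} [LinearOrder α] [LinearOrder ι] {d : α → α → ι}
    (hsub : ∀ a b c, a < b → b < c → d a c ≤ max (d a b) (d b c))
    {X Y Z : Set α} (h : Good d X Y Z) {x y z : α} (hx : x ∈ X) (hy : y ∈ Y) (hz : z ∈ Z)
    (hxy : x < y) (hyz : y < z) : d y z < d x y := by
  have hlt : d y z < d x z := by
    rcases h x hx y hy z hz (hxy.trans hyz) hyz hxy.ne with h | h
    · exact h
    · exact absurd h.2 (not_lt.mpr hxy.le)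
  rcases le_max_iff.mp (hsub x y z hxy hyz) with h | h
  · exact hlt.trans_le h
  · exact absurd h (not_le.mpr hlt)

theorem no_cyclic' {α ι : Type u} [LinearOrder α] [LinearOrder ι] [WellFoundedLT ι]
    {d : α → α → ι} {K : Cardinal.{u}} (hK : ℵ₀ ≤ K)
    (hsub : ∀ a b c, a < b → b < c → d a c ≤ max (d a b) (d b c))
    (hsmall : ∀ i c, #{a | a < c ∧ d a c ≤ i} < K)
    {X Y Z : Set α} (hX : K ≤ #X) (hY : K ≤ #Y) (hZ : K ≤ #Z)
    (h1 : Good d X Y Z) (h2 : Good d Y Z X) (h3 : Good d Z X Y) : False := by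
  have B1 : ∀ x ∈ X, ∀ z ∈ Z, x < z → ∃ y ∈ Y, z < y :=
    fun x hx z hz h => h1.above' hK hsmall hY hx hz h
  have B2 : ∀ y ∈ Y, ∀ x ∈ X, y < x → ∃ z ∈ Z, x < z :=
    fun y hy x hx h => h2.above' hK hsmall hZ hy hx h
  have B3 : ∀ z ∈ Z, ∀ y ∈ Y, z < y → ∃ x ∈ X, y < x :=
    fun z hz y hy h => h3.above' hK hsmall hX hz hy h
  have h1K : 1 < K := one_lt_aleph0.trans_le hK
  have hXn : X.Nontrivial := by
    rw [← Set.nontrivial_coe_sort, ← Cardinal.one_lt_iff_nontrivial]
    exact h1K.trans_le hX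
  have hYn : Y.Nonempty := by
    rw [← Set.nonempty_coe_sort, ← Cardinal.mk_ne_zero_iff]
    exact ((zero_lt_one.trans h1K).trans_le hY).ne'
  have hZn : Z.Nonempty := by
    rw [← Set.nonempty_coe_sort, ← Cardinal.mk_ne_zero_iff]
    exact ((zero_lt_one.trans h1K).trans_le hZ).ne'
  have hstart : ∃ x ∈ X, ∃ z ∈ Z, x < z := by
    obtain ⟨y, hy⟩ := hYn
    obtain ⟨z, hz⟩ := hZn
    by_contra hcon
    have c1 : ∀ x ∈ X, ∀ z ∈ Z, z ≤ x := fun x hx z hz =>
      not_lt.mp fun h => hcon ⟨x, hx, z, hz, h⟩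
    have c2 : ∀ x ∈ X, x ≤ y := fun x hx => not_lt.mp fun h => by
      obtain ⟨z', hz', h'⟩ := B2 y hy x hx h
      exact hcon ⟨x, hx, z', hz', h'⟩
    have c3 : y ≤ z := not_lt.mp fun h => by
      obtain ⟨x, hx, h'⟩ := B3 z hz y hy h
      exact absurd (c2 x hx) (not_le.mpr h')
    obtain ⟨x, hx, x', hx', hne⟩ := hXn
    have e1 : x = z := le_antisymm ((c2 x hx).trans c3) (c1 x hx z hz)
    have e2 : x' = z := le_antisymm ((c2 x' hx').trans c3) (c1 x' hx' z hz)
    exact hne (e1.trans e2.symm)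
  obtain ⟨x0, hx0, z0, hz0, hxz0⟩ := hstart
  -- above every point of `Y` beyond `z0` there are points of `X`, `Z`, `Y` in this order
  have up : ∀ y ∈ Y, z0 < y → ∃ x ∈ X, ∃ z ∈ Z, ∃ y' ∈ Y, y < x ∧ x < z ∧ z < y' := by
    intro y hy h
    obtain ⟨x, hx, hyx⟩ := B3 z0 hz0 y hy h
    obtain ⟨z, hz, hxz⟩ := B2 y hy x hx hyx
    obtain ⟨y', hy', hzy⟩ := B1 x hx z hz hxz
    exact ⟨x, hx, z, hz, y', hy', hyx, hxz, hzy⟩
  have key : ∀ i : ι, ∀ x ∈ X, ∀ y ∈ Y, x < y → z0 < y → d x y ≠ i := by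
    intro i
    induction i using WellFoundedLT.induction with
    | ind i ih =>
      intro x hx y hy hxy hzy e
      obtain ⟨x1, hx1, z1, hz1, y1, hy1, a1, a2, a3⟩ := up y hy hzy
      obtain ⟨x2, hx2, z2, hz2, y2, hy2, b1, b2, b3⟩ :=
        up y1 hy1 (hzy.trans (a1.trans (a2.trans a3)))
      have d1 := h1.desc hsub hx hy hz1 hxy (a1.trans a2)
      have d2 := h2.desc hsub hy hz1 hx2 (a1.trans a2) (a3.trans b1)
      have d3 := h3.desc hsub hz1 hx2 hy2 (a3.trans b1) (b2.trans b3)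
      exact ih _ (e ▸ d3.trans (d2.trans d1)) x2 hx2 y2 hy2 (b2.trans b3)
        (hzy.trans (a1.trans (a2.trans (a3.trans (b1.trans (b2.trans b3)))))) rfl
  obtain ⟨y0, hy0, hzy0⟩ := B1 x0 hx0 z0 hz0 hxz0
  exact key _ x0 hx0 y0 hy0 (hxz0.trans hzy0) hzy0 rfl

theorem colouring_of_subadd {α ι : Type u} [LinearOrder α] [LinearOrder ι] [WellFoundedLT ι]
    {d : α → α → ι} {K : Cardinal.{u}} (hK : ℵ₀ ≤ K)
    (hsub : ∀ a b c, a < b → b < c → d a c ≤ max (d a b) (d b c))
    (hsmall : ∀ i c, #{a | a < c ∧ d a c ≤ i} < K) :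
    ∃ c : α → α → α → Fin 2, ∀ H I J : Set α, K ≤ #H → K ≤ #I → K ≤ #J →
      ¬ ∃ i : Fin 2, ∀ a ∈ H, ∀ b ∈ I, ∀ g ∈ J, c a b g = i := by
  classical
  let c : α → α → α → Fin 2 := fun a b g =>
    if a < g ∧ b < g then (if Beats d g a b then 0 else 1)
    else if b < a ∧ g < a then (if Beats d a b g then 0 else 1)
    else (if Beats d b g a then 0 else 1)
  have c1 : ∀ a b g, a < g → b < g → c a b g = if Beats d g a b then 0 else 1 := by
    intro a b g h1 h2
    simp only [c, h1, h2, and_self, if_true]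
  have c2 : ∀ a b g, b < a → g < a → c a b g = if Beats d a b g then 0 else 1 := by
    intro a b g h1 h2
    have h3 : ¬ (a < g ∧ b < g) := fun h => absurd h.1 (not_lt.mpr h2.le)
    simp only [c, h3, h1, h2, and_self, if_true, if_false]
  have c3 : ∀ a b g, g < b → a < b → c a b g = if Beats d b g a then 0 else 1 := by
    intro a b g h1 h2
    have h3 : ¬ (a < g ∧ b < g) := fun h => absurd h.2 (not_lt.mpr h1.le)
    have h4 : ¬ (b < a ∧ g < a) := fun h => absurd h.1 (not_lt.mpr h2.le)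
    simp only [c, h3, h4, if_false]
  have z0 : ∀ p : Prop, (if p then (0 : Fin 2) else 1) = 0 → p := by
    intro p h
    by_contra hp
    simp [hp] at h
  have z1 : ∀ p : Prop, (if p then (0 : Fin 2) else 1) = 1 → ¬ p := by
    intro p h hp
    simp [hp] at h
  refine ⟨c, ?_⟩
  rintro H I J hH hI hJ ⟨i, hi⟩
  have hi01 : i = 0 ∨ i = 1 := by omega
  rcases hi01 with rfl | rfl
  · refine no_cyclic' hK hsub hsmall hH hI hJ ?_ ?_ ?_
    · intro x hx y hy z hz h1 h2 _
      exact z0 _ ((c1 x y z h1 h2).symm.trans (hi x hx y hy z hz))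
    · intro x hx y hy z hz h1 h2 _
      exact z0 _ ((c2 z x y h1 h2).symm.trans (hi z hz x hx y hy))
    · intro x hx y hy z hz h1 h2 _
      exact z0 _ ((c3 y z x h1 h2).symm.trans (hi y hy z hz x hx))
  · refine no_cyclic' hK hsub hsmall hI hH hJ ?_ ?_ ?_
    · intro x hx y hy z hz h1 h2 hne
      exact Beats.of_not (z1 _ ((c1 y x z h2 h1).symm.trans (hi y hy x hx z hz))) hne
    · intro x hx y hy z hz h1 h2 hne
      exact Beats.of_not (z1 _ ((c3 x z y h2 h1).symm.trans (hi x hx z hz y hy))) hne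
    · intro x hx y hy z hz h1 h2 hne
      exact Beats.of_not (z1 _ ((c2 z y x h2 h1).symm.trans (hi z hz y hy x hx))) hne

theorem exists_colouring_all {α : Type u} [LinearOrder α] [WellFoundedLT α] (K : Cardinal.{u})
    (hK : ℵ₀ ≤ K) (hseg : ∀ a : α, #(Iio a) ≤ K) :
    ∃ c : α → α → α → Fin 2, ∀ H I J : Set α, K ≤ #H → K ≤ #I → K ≤ #J →
      ¬ ∃ i : Fin 2, ∀ a ∈ H, ∀ b ∈ I, ∀ g ∈ J, c a b g = i := by
  rcases hK.eq_or_lt with rfl | hK'
  · obtain ⟨d, h1, h2⟩ := exists_subadd_nat hseg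
    exact colouring_of_subadd le_rfl h1 h2
  · obtain ⟨d, h1, h2⟩ := exists_subadd K hK' hseg
    refine colouring_of_subadd hK h1 fun i c => ?_
    obtain ⟨ν, hν, -, h⟩ := h2 i
    exact (h c).trans_lt hν

end Pool.Agent.P.MP_95c9ea_lc
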