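import Mathlib

set_option autoImplicit false

open Cardinal Set Order

namespace Pool.Agent.P.MP_95c9ea_lc

universe u

/-- A well order all of whose proper initial segments have size at most `ν` has size at most `ν⁺`. -/
theorem mk_le_succ_of_Iio {β : Type u} [LinearOrder β] [WellFoundedLT β] (ν : Cardinal.{u})
    (h : ∀ b : β, #(Iio b) ≤ ν) : #β ≤ succ ν := by
  by_contra hlt
  rw [not_le] at hlt
  have h1 : (succ ν).ord < Ordinal.type (· < · : β → β → Prop) := by
    by_contra h2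
    rw [not_lt] at h2
    have h3 := Ordinal.card_le_card h2
    rw [Ordinal.card_type, Cardinal.card_ord] at h3
    exact absurd hlt (not_lt.mpr h3)
  obtain ⟨b, hb⟩ := Ordinal.typein_surj (· < · : β → β → Prop) h1
  have h2 : #(Iio b) = succ ν := by
    have h4 := Ordinal.card_typein (r := (· < · : β → β → Prop)) b
    rw [hb, Cardinal.card_ord] at h4
    exact h4.symm
  have h5 := h b
  rw [h2] at h5
  exact absurd h5 (not_le.mpr (lt_succ ν))

/-- Below an element, the transitive closure of a relation with small fibres has small fibres. -/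
theorem mk_transGen_le {α : Type u} [LinearOrder α] [WellFoundedLT α] (R : α → α → Prop)
    (hR : ∀ a b, R a b → a < b) (ν : Cardinal.{u}) (hν : ℵ₀ ≤ ν)
    (hs : ∀ c, #{a | R a c} ≤ ν) (c : α) : #{a | Relation.TransGen R a c} ≤ ν := by
  induction c using WellFoundedLT.induction with
  | ind c ih =>
    have hsub : {a | Relation.TransGen R a c} ⊆
        {a | R a c} ∪ ⋃ b ∈ {b | R b c}, {a | Relation.TransGen R a b} := by
      intro a ha
      simp only [mem_ofPred_eq] at ha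
      cases ha with
      | single h => exact Or.inl h
      | tail h1 h2 =>
        right
        simp only [mem_iUnion, mem_ofPred_eq]
        exact ⟨_, h2, h1⟩
    refine (mk_le_mk_of_subset hsub).trans ((mk_union_le _ _).trans ?_)
    have h2 : #(⋃ b ∈ {b | R b c}, {a | Relation.TransGen R a b}) ≤ ν := by
      refine (mk_biUnion_le _ _).trans ?_
      have h3 : (⨆ x : {b | R b c}, #{a | Relation.TransGen R a x.1}) ≤ ν :=
        ciSup_le' fun x => ih x.1 (hR _ _ x.2)
      calc #{b | R b c} * (⨆ x : {b | R b c}, #{a | Relation.TransGen R a x.1})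
          ≤ ν * ν := mul_le_mul' (hs c) h3
        _ = ν := mul_eq_self hν
    calc #{a | R a c} + #(⋃ b ∈ {b | R b c}, {a | Relation.TransGen R a b})
        ≤ ν + ν := add_le_add (hs c) h2
      _ = ν := add_eq_self hν

/-- A subadditive function on pairs with uniformly small fibres. -/
theorem exists_subadd {α : Type u} [LinearOrder α] [WellFoundedLT α] (K : Cardinal.{u})
    (hK : ℵ₀ < K) (hseg : ∀ a : α, #(Iio a) ≤ K) :
    ∃ d : α → α → K.ord.ToType, (∀ a b c, a < b → b < c → d a c ≤ max (d a b) (d b c)) ∧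
      ∀ i, ∃ ν < K, ℵ₀ ≤ ν ∧ ∀ c, #{a | a < c ∧ d a c ≤ i} ≤ ν := by
  classical
  have hne : Nonempty K.ord.ToType := by
    rw [← Cardinal.mk_ne_zero_iff, Cardinal.mk_ord_toType]
    exact (aleph0_pos.trans hK).ne'
  have hemb : ∀ c : α, Nonempty (Iio c ↪ K.ord.ToType) := by
    intro c
    rw [← Cardinal.le_def, Cardinal.mk_ord_toType]
    exact hseg c
  let e : ∀ c : α, Iio c ↪ K.ord.ToType := fun c => (hemb c).some
  let R : K.ord.ToType → α → α → Prop := fun i a c => ∃ h : a < c, e c ⟨a, h⟩ ≤ i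
  have hRmono : ∀ i j, i ≤ j → ∀ a c, R i a c → R j a c := by
    rintro i j hij a c ⟨h, h2⟩
    exact ⟨h, h2.trans hij⟩
  have hTmono : ∀ i j, i ≤ j → ∀ a c, Relation.TransGen (R i) a c → Relation.TransGen (R j) a c :=
    fun i j hij a c h => Relation.TransGen.mono (hRmono i j hij) _ _ h
  have hex : ∀ a c, a < c → ({i | Relation.TransGen (R i) a c} : Set K.ord.ToType).Nonempty :=
    fun a c h => ⟨e c ⟨a, h⟩, Relation.TransGen.single ⟨h, le_rfl⟩⟩
  let d : α → α → K.ord.ToType := fun a c =>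
    if h : a < c then wellFounded_lt.min {i | Relation.TransGen (R i) a c} (hex a c h)
    else hne.some
  have hd1 : ∀ a c, a < c → Relation.TransGen (R (d a c)) a c := by
    intro a c h
    have := wellFounded_lt.min_mem {i | Relation.TransGen (R i) a c} (hex a c h)
    simp only [d, dif_pos h]
    exact this
  have hd2 : ∀ a c, a < c → ∀ i, Relation.TransGen (R i) a c → d a c ≤ i := by
    intro a c h i hi
    simp only [d, dif_pos h]
    exact WellFounded.min_le wellFounded_lt (s := {i | Relation.TransGen (R i) a c}) hi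
  refine ⟨d, ?_, ?_⟩
  · intro a b c hab hbc
    apply hd2 a c (hab.trans hbc)
    exact (hTmono _ _ (le_max_left _ _) _ _ (hd1 a b hab)).trans
      (hTmono _ _ (le_max_right _ _) _ _ (hd1 b c hbc))
  · intro i
    have hIic : #(Iic i) < K := by
      have := mk_Iic_lt i (by simp) (by simpa using hK.le)
      simpa using this
    refine ⟨max #(Iic i) ℵ₀, max_lt hIic hK, le_max_right _ _, fun c => ?_⟩
    have h1 : {a | a < c ∧ d a c ≤ i} ⊆ {a | Relation.TransGen (R i) a c} := by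
      rintro a ⟨h, h2⟩
      exact hTmono _ _ h2 _ _ (hd1 a c h)
    refine (mk_le_mk_of_subset h1).trans ?_
    apply mk_transGen_le (R i) (fun a b h => h.1) _ (le_max_right _ _)
    intro c
    refine le_trans ?_ (le_max_left _ _)
    refine Cardinal.mk_le_of_injective
      (f := fun a : {a | R i a c} => (⟨e c ⟨a.1, a.2.1⟩, a.2.2⟩ : Iic i)) ?_
    intro a b hab
    have h2 : e c ⟨a.1, a.2.1⟩ = e c ⟨b.1, b.2.1⟩ := congrArg Subtype.val hab
    have h3 := (e c).injective h2
    have h4 : a.1 = b.1 := Subtype.mk.inj h3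
    exact Subtype.ext h4

/-- `x` beats `y` at `z`: the pair `(d x z, x)` is lexicographically above `(d y z, y)`. -/
def Beats {α ι : Type u} [LinearOrder α] [LinearOrder ι] (d : α → α → ι) (z x y : α) : Prop :=
  d y z < d x z ∨ (d x z = d y z ∧ y < x)

theorem Beats.of_not {α ι : Type u} [LinearOrder α] [LinearOrder ι] {d : α → α → ι} {z x y : α}
    (h : ¬ Beats d z x y) (hne : y ≠ x) : Beats d z y x := by
  unfold Beats at *
  rw [not_or] at h
  obtain ⟨h1, h2⟩ := h
  rcases lt_trichotomy (d x z) (d y z) with h3 | h3 | h3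
  · exact Or.inl h3
  · right
    refine ⟨h3.symm, ?_⟩
    rcases lt_trichotomy x y with h4 | h4 | h4
    · exact h4
    · exact absurd h4.symm hne
    · exact absurd ⟨h3, h4⟩ h2
  · exact absurd h3 h1

/-- Points of `X` beat points of `Y` at every larger point of `Z`. -/
def Good {α ι : Type u} [LinearOrder α] [LinearOrder ι] (d : α → α → ι) (X Y Z : Set α) : Prop :=
  ∀ x ∈ X, ∀ y ∈ Y, ∀ z ∈ Z, x < z → y < z → x ≠ y → Beats d z x y

theorem Good.small {α ι : Type u} [LinearOrder α] [LinearOrder ι] {d : α → α → ι}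
    {X Y Z : Set α} (h : Good d X Y Z) {x z : α} (hx : x ∈ X) (hz : z ∈ Z) (hxz : x < z)
    {i : ι} (hi : d x z ≤ i) {ν : Cardinal.{u}} (hν : ℵ₀ ≤ ν)
    (hs : #{a | a < z ∧ d a z ≤ i} ≤ ν) : #(Y ∩ Iio z : Set α) ≤ ν := by
  have hsub : (Y ∩ Iio z : Set α) ⊆ insert x {a | a < z ∧ d a z ≤ i} := by
    rintro y ⟨hy, hyz⟩
    by_cases hxy : y = x
    · exact Or.inl hxy
    · right
      refine ⟨hyz, ?_⟩
      rcases h x hx y hy z hz hxz hyz (Ne.symm hxy) with h1 | h1
      · exact h1.le.trans hi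
      · exact h1.1.symm.le.trans hi
  refine (mk_le_mk_of_subset hsub).trans (mk_insert_le.trans ?_)
  calc #{a | a < z ∧ d a z ≤ i} + 1 ≤ ν + 1 := by gcongr
    _ = ν := add_one_eq hν

theorem Good.above {α ι : Type u} [LinearOrder α] [LinearOrder ι] {d : α → α → ι}
    {K : Cardinal.{u}} (hsmall : ∀ i, ∃ ν < K, ℵ₀ ≤ ν ∧ ∀ c, #{a | a < c ∧ d a c ≤ i} ≤ ν)
    {X Y Z : Set α} (h : Good d X Y Z) (hY : K ≤ #Y) {x z : α} (hx : x ∈ X) (hz : z ∈ Z)
    (hxz : x < z) : ∃ y ∈ Y, z < y := by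
  by_contra hcon
  obtain ⟨ν, hνK, hν, hs⟩ := hsmall (d x z)
  have h1 := h.small hx hz hxz le_rfl hν (hs z)
  have hsub : Y ⊆ insert z (Y ∩ Iio z) := by
    intro y hy
    rcases lt_trichotomy y z with h2 | h2 | h2
    · exact Or.inr ⟨hy, h2⟩
    · exact Or.inl h2
    · exact absurd ⟨y, hy, h2⟩ hcon
  have h2 : #Y ≤ ν := by
    refine (mk_le_mk_of_subset hsub).trans (mk_insert_le.trans ?_)
    calc #(Y ∩ Iio z : Set α) + 1 ≤ ν + 1 := by gcongr
      _ = ν := add_one_eq hν
  exact absurd (hY.trans h2) (not_le.mpr hνK)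

theorem no_cyclic {α ι : Type u} [LinearOrder α] [WellFoundedLT α] [LinearOrder ι]
    {d : α → α → ι} {K : Cardinal.{u}} (hK : ℵ₀ < K) (hlim : ∀ ν < K, succ ν < K)
    (hsub : ∀ a b c, a < b → b < c → d a c ≤ max (d a b) (d b c))
    (hsmall : ∀ i, ∃ ν < K, ℵ₀ ≤ ν ∧ ∀ c, #{a | a < c ∧ d a c ≤ i} ≤ ν)
    {X Y Z : Set α} (hX : K ≤ #X) (hY : K ≤ #Y) (hZ : K ≤ #Z)
    (h1 : Good d X Y Z) (h2 : Good d Y Z X) (h3 : Good d Z X Y) : False := by
  have B1 : ∀ x ∈ X, ∀ z ∈ Z, x < z → ∃ y ∈ Y, z < y :=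
    fun x hx z hz h => h1.above hsmall hY hx hz h
  have B2 : ∀ y ∈ Y, ∀ x ∈ X, y < x → ∃ z ∈ Z, x < z :=
    fun y hy x hx h => h2.above hsmall hZ hy hx h
  have B3 : ∀ z ∈ Z, ∀ y ∈ Y, z < y → ∃ x ∈ X, y < x :=
    fun z hz y hy h => h3.above hsmall hX hz hy h
  have h1K : 1 < K := one_lt_aleph0.trans hK
  have hXn : X.Nontrivial := by
    rw [← Set.nontrivial_coe_sort, ← Cardinal.one_lt_iff_nontrivial]
    exact h1K.trans_le hX
  have hYn : Y.Nonempty := by
    rw [← Set.nonempty_coe_sort, ← Cardinal.mk_ne_zero_iff]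
    exact ((zero_lt_one.trans h1K).trans_le hY).ne'
  have hZn : Z.Nonempty := by
    rw [← Set.nonempty_coe_sort, ← Cardinal.mk_ne_zero_iff]
    exact ((zero_lt_one.trans h1K).trans_le hZ).ne'
  have hstart : ∃ x ∈ X, ∃ z ∈ Z, x < z := by
    obtain ⟨y, hy⟩ := hYn
    obtain ⟨z, hz⟩ := hZn
    by_contra hcon
    have c1 : ∀ x ∈ X, ∀ z ∈ Z, z ≤ x := fun x hx z hz =>
      not_lt.mp fun h => hcon ⟨x, hx, z, hz, h⟩
    have c2 : ∀ x ∈ X, x ≤ y := fun x hx => not_lt.mp fun h => by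
      obtain ⟨z', hz', h'⟩ := B2 y hy x hx h
      exact hcon ⟨x, hx, z', hz', h'⟩
    have c3 : y ≤ z := not_lt.mp fun h => by
      obtain ⟨x, hx, h'⟩ := B3 z hz y hy h
      exact absurd (c2 x hx) (not_le.mpr h')
    obtain ⟨x, hx, x', hx', hne⟩ := hXn
    have e1 : x = z := le_antisymm ((c2 x hx).trans c3) (c1 x hx z hz)
    have e2 : x' = z := le_antisymm ((c2 x' hx').trans c3) (c1 x' hx' z hz)
    exact hne (e1.trans e2.symm)
  obtain ⟨x0, hx0, z0, hz0, hxz0⟩ := hstart
  obtain ⟨y0, hy0, hzy0⟩ := B1 x0 hx0 z0 hz0 hxz0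
  have hxy0 : x0 < y0 := hxz0.trans hzy0
  obtain ⟨ν, hνK, hν, hs⟩ := hsmall (d x0 y0)
  have hbound : ∀ z ∈ Z, y0 < z → #(Y ∩ Iio z : Set α) ≤ ν := by
    intro z hz hyz
    have hb := h1 x0 hx0 y0 hy0 z hz (hxy0.trans hyz) hyz hxy0.ne
    have hlt : d y0 z < d x0 z := by
      rcases hb with h | h
      · exact h
      · exact absurd h.2 (not_lt.mpr hxy0.le)
    have hle : d x0 z ≤ d x0 y0 := by
      rcases le_max_iff.mp (hsub x0 y0 z hxy0 hyz) with h | h
      · exact h
      · exact absurd h (not_le.mpr hlt)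
    exact h1.small hx0 hz (hxy0.trans hyz) hle hν (hs z)
  have hcof : ∀ y ∈ Y, ∃ z ∈ Z, y0 < z ∧ y < z := by
    intro y hy
    have key : ∀ y ∈ Y, y0 ≤ y → ∃ z ∈ Z, y < z := by
      intro y hy h
      obtain ⟨x, hx, hyx⟩ := B3 z0 hz0 y hy (hzy0.trans_le h)
      obtain ⟨z, hz, hxz⟩ := B2 y hy x hx hyx
      exact ⟨z, hz, hyx.trans hxz⟩
    rcases le_total y0 y with h | h
    · obtain ⟨z, hz, hyz⟩ := key y hy h
      exact ⟨z, hz, h.trans_lt hyz, hyz⟩
    · obtain ⟨z, hz, hyz⟩ := key y0 hy0 le_rfl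
      exact ⟨z, hz, hyz, h.trans_lt hyz⟩
  have hYle : #Y ≤ succ ν := by
    apply mk_le_succ_of_Iio
    intro y
    obtain ⟨z, hz, h0z, hyz⟩ := hcof y.1 y.2
    refine le_trans ?_ (hbound z hz h0z)
    refine Cardinal.mk_le_of_injective
      (f := fun a : Iio y => (⟨a.1.1, a.1.2, lt_trans a.2 hyz⟩ : (Y ∩ Iio z : Set α))) ?_
    intro a b hab
    have h4 : a.1.1 = b.1.1 := Subtype.mk.inj hab
    exact Subtype.ext (Subtype.ext h4)
  exact absurd (hY.trans hYle) (not_le.mpr (hlim ν hνK))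

/-- The negative cube relation for a well order whose initial segments have size at most an
uncountable limit cardinal `K`. -/
theorem exists_colouring {α : Type u} [LinearOrder α] [WellFoundedLT α] (K : Cardinal.{u})
    (hK : ℵ₀ < K) (hlim : ∀ ν < K, succ ν < K) (hseg : ∀ a : α, #(Iio a) ≤ K) :
    ∃ c : α → α → α → Fin 2, ∀ H I J : Set α, K ≤ #H → K ≤ #I → K ≤ #J →
      ¬ ∃ i : Fin 2, ∀ a ∈ H, ∀ b ∈ I, ∀ g ∈ J, c a b g = i := by
  classical
  obtain ⟨d, hsub, hsmall⟩ := exists_subadd K hK hseg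
  let c : α → α → α → Fin 2 := fun a b g =>
    if a < g ∧ b < g then (if Beats d g a b then 0 else 1)
    else if b < a ∧ g < a then (if Beats d a b g then 0 else 1)
    else (if Beats d b g a then 0 else 1)
  have c1 : ∀ a b g, a < g → b < g → c a b g = if Beats d g a b then 0 else 1 := by
    intro a b g h1 h2
    simp only [c, h1, h2, and_self, if_true]
  have c2 : ∀ a b g, b < a → g < a → c a b g = if Beats d a b g then 0 else 1 := by
    intro a b g h1 h2
    have h3 : ¬ (a < g ∧ b < g) := fun h => absurd h.1 (not_lt.mpr h2.le)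
    simp only [c, h3, h1, h2, and_self, if_true, if_false]
  have c3 : ∀ a b g, g < b → a < b → c a b g = if Beats d b g a then 0 else 1 := by
    intro a b g h1 h2
    have h3 : ¬ (a < g ∧ b < g) := fun h => absurd h.2 (not_lt.mpr h1.le)
    have h4 : ¬ (b < a ∧ g < a) := fun h => absurd h.1 (not_lt.mpr h2.le)
    simp only [c, h3, h4, if_false]
  have z0 : ∀ p : Prop, (if p then (0 : Fin 2) else 1) = 0 → p := by
    intro p h
    by_contra hp
    simp [hp] at h
  have z1 : ∀ p : Prop, (if p then (0 : Fin 2) else 1) = 1 → ¬ p := by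
    intro p h hp
    simp [hp] at h
  refine ⟨c, ?_⟩
  rintro H I J hH hI hJ ⟨i, hi⟩
  have hi01 : i = 0 ∨ i = 1 := by omega
  rcases hi01 with rfl | rfl
  · refine no_cyclic hK hlim hsub hsmall hH hI hJ ?_ ?_ ?_
    · intro x hx y hy z hz h1 h2 _
      exact z0 _ ((c1 x y z h1 h2).symm.trans (hi x hx y hy z hz))
    · intro x hx y hy z hz h1 h2 _
      exact z0 _ ((c2 z x y h1 h2).symm.trans (hi z hz x hx y hy))
    · intro x hx y hy z hz h1 h2 _
      exact z0 _ ((c3 y z x h1 h2).symm.trans (hi y hy z hz x hx))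
  · refine no_cyclic hK hlim hsub hsmall hI hH hJ ?_ ?_ ?_
    · intro x hx y hy z hz h1 h2 hne
      exact Beats.of_not (z1 _ ((c1 y x z h2 h1).symm.trans (hi y hy x hx z hz))) hne
    · intro x hx y hy z hz h1 h2 hne
      exact Beats.of_not (z1 _ ((c3 x z y h2 h1).symm.trans (hi x hx z hz y hy))) hne
    · intro x hx y hy z hz h1 h2 hne
      exact Beats.of_not (z1 _ ((c2 z y x h2 h1).symm.trans (hi z hz y hy x hx))) hne

end Pool.Agent.P.MP_95c9ea_lc
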